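import Pool.Agent.W313.Gr.Two
import Pool.Agent.W343.BSD.KidaFinal

/-!
The comparison of the `L`-functions of an elliptic curve over a function field in a Galois extension
of prime power degree: exact multiplicities of the central point modulo the prime.
-/

set_option autoImplicit false
set_option linter.all false
set_option maxHeartbeats 4000000

open FF Module

namespace Pool.Agent.TH943.KD

open Pool.Agent.H123R3.ZT Pool.Agent.W343.BSD Pool.Agent.W313.Gr

section bound

variable {k K L : Type} [Field k] [Finite k] [Field K] [Algebra k K] [FF.IsFF k K] [Field L]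
  [Algebra k L] [Algebra K L] [IsScalarTower k K L] [FF.IsFF k L] [FiniteDimensional K L]
  [IsGalois K L]

theorem kida_eq {l s : ℕ} [Fact l.Prime] (hn : finrank K L = l ^ s)
    {a b : K} (hΔ : 4 * a ^ 3 + 27 * b ^ 2 ≠ 0) {S : Place k K → Finset (Place k L)}
    {e f : Place k K → ℕ} (D : ∀ v, GaloisFiber v (S v) (e v) (f v)) (B : Finset (Place k K))
    (hB : ∀ v, v ∉ B → e v = 1)
    (hadd : ∀ v ∈ B, e v = 1 ∨ v.red (minA v a b) ≠ 0 ∨ v.red (minDisc v a b) ≠ 0)
    {P : Polynomial ℤ} (hP : Lfun k a b = (P : PowerSeries ℤ))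
    (x : ZMod l) (Q : Polynomial (ZMod l))
    (hQ : redL l (Lfun k (algebraMap K L a) (algebraMap K L b)) = (Q : PowerSeries (ZMod l))) :
    Q.rootMultiplicity x = l ^ s * (P.map (Int.castRingHom (ZMod l))).rootMultiplicity x +
      ∑ v ∈ B, (l ^ s - l ^ s / e v) * (locML l v a b).rootMultiplicity x := by
  classical
  have hid := kida_identity hn hΔ D B hB hP
  rw [hQ, ← Polynomial.coe_mul] at hid
  have hid' := Polynomial.coe_injective _ hid
  set P' := P.map (Int.castRingHom (ZMod l)) with hP'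
  have hP0 : P' ≠ 0 := by
    intro h
    have h1 := lfun_modL (k := k) l a b
    rw [hP, redL_poly, ← hP', h, Polynomial.coe_zero, zero_mul] at h1
    exact zero_ne_one h1
  have hQ0 : Q ≠ 0 := by
    intro h
    have h1 := lfun_modL (k := k) l (algebraMap K L a) (algebraMap K L b)
    rw [hQ, h, Polynomial.coe_zero, zero_mul] at h1
    exact zero_ne_one h1
  have hpne : ∀ v ∈ B, locML l v a b ^ l ^ s ≠ 0 := fun v _ => pow_ne_zero _ (locML_ne l v a b)
  have hwne : ∀ v ∈ B, ∏ w ∈ S v, locML l w (algebraMap K L a) (algebraMap K L b) ≠ 0 :=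
    fun v _ => Finset.prod_ne_zero_iff.2 fun w _ => locML_ne l w _ _
  have hmu := congrArg (Polynomial.rootMultiplicity x) hid'
  rw [rm_mul x (pow_ne_zero _ hP0) (Finset.prod_ne_zero_iff.2 hpne), rm_pow x hP0,
    rm_prod x _ _ hpne, rm_mul x hQ0 (Finset.prod_ne_zero_iff.2 hwne), rm_prod x _ _ hwne] at hmu
  have hepos : ∀ v, 0 < e v := by
    intro v
    have hmul := (D v).mul
    rw [hn] at hmul
    rcases Nat.eq_zero_or_pos (e v) with h0 | h0
    · rw [h0, zero_mul, mul_zero] at hmul
      exact absurd hmul.symm (pow_ne_zero s (Fact.out : l.Prime).ne_zero)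
    · exact h0
  have hloc : ∀ v ∈ B, l ^ s / e v * (locML l v a b).rootMultiplicity x =
      (∏ w ∈ S v, locML l w (algebraMap K L a) (algebraMap K L b)).rootMultiplicity x := by
    intro v hv
    obtain ⟨j, hj⟩ := fiber_pow (D v) hn
    have h1 : ∀ w ∈ S v, locML l w (algebraMap K L a) (algebraMap K L b) =
        locML l v a b ^ f v := fun w hw =>
      locML_over ((D v).isOver w hw) ((D v).deg w hw) hj hΔ (hadd v hv)
    rw [Finset.prod_congr rfl h1, Finset.prod_const, ← pow_mul, rm_pow x (locML_ne l v a b)]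
    congr 1
    have hmul := (D v).mul
    rw [hn] at hmul
    rw [← hmul, show (S v).card * (e v * f v) = e v * (f v * (S v).card) by ring,
      Nat.mul_div_cancel_left _ (hepos v)]
  have hsum : ∑ v ∈ B, (locML l v a b ^ l ^ s).rootMultiplicity x =
      ∑ v ∈ B, (l ^ s - l ^ s / e v) * (locML l v a b).rootMultiplicity x +
      ∑ v ∈ B, (∏ w ∈ S v,
        locML l w (algebraMap K L a) (algebraMap K L b)).rootMultiplicity x := by
    rw [← Finset.sum_add_distrib]
    refine Finset.sum_congr rfl fun v hv => ?_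
    rw [rm_pow x (locML_ne l v a b), ← hloc v hv, ← Nat.add_mul]
    congr 1
    exact (Nat.sub_add_cancel (Nat.div_le_self _ _)).symm
  omega

end bound

section consts

variable {k K k' L : Type} [Field k] [Finite k] [Field K] [Algebra k K] [FF.IsFF k K]
  [Field k'] [Finite k'] [Field L] [Algebra k' L] [Algebra k k'] [Algebra k L] [Algebra K L]
  [IsScalarTower k K L] [IsScalarTower k k' L] [FF.IsFF k L] [FF.IsFF k' L]
  [FiniteDimensional K L] [IsGalois K L]

theorem card_pow {l : ℕ} : ((Nat.card k' : ℕ) : ZMod l) =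
    ((Nat.card k : ℕ) : ZMod l) ^ finrank k k' := by
  have : FiniteDimensional k k' := Module.Finite.of_finite
  rw [Module.natCard_eq_pow_finrank (K := k) (V := k')]
  push_cast
  rfl

/-- the multiplicity over the larger field of constants -/
theorem kida_eq_const (hconst : ∀ a : K, IsAlgebraic k a → a ∈ (algebraMap k K).range)
    {l s : ℕ} [hl : Fact l.Prime] (hn : finrank K L = l ^ s) {a b : K}
    (hΔ : 4 * a ^ 3 + 27 * b ^ 2 ≠ 0) {e : Place k K → ℕ}
    (he : ∀ (v : Place k K) (w : Place k L) (n : ℕ), Over w v n → n = e v)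
    (B : Finset (Place k K)) (hB : ∀ v, v ∉ B → e v = 1)
    (hadd : ∀ v ∈ B, e v = 1 ∨ v.red (minA v a b) ≠ 0 ∨ v.red (minDisc v a b) ≠ 0)
    {P : Polynomial ℤ}
    (hP : Lfun k a b = (P : PowerSeries ℤ)) (Q : Polynomial ℤ)
    (hQ : Lfun k' (algebraMap K L a) (algebraMap K L b) = (Q : PowerSeries ℤ)) :
    finrank k k' *
        (Q.map (Int.castRingHom (ZMod l))).rootMultiplicity ((Nat.card k' : ℕ) : ZMod l)⁻¹ =
      finrank K L *
        (P.map (Int.castRingHom (ZMod l))).rootMultiplicity ((Nat.card k : ℕ) : ZMod l)⁻¹ +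
      ∑ v ∈ B, (finrank K L - finrank K L / e v) *
        (locML l v a b).rootMultiplicity ((Nat.card k : ℕ) : ZMod l)⁻¹ := by
  classical
  have hD := fun v : Place k K => exists_galoisFiber (L := L) v
  choose S e' f D using hD
  have hee : ∀ v, e' v = e v := fun v => by
    obtain ⟨w, hw⟩ := (D v).nonempty
    exact he v w _ ((D v).isOver w hw)
  obtain rfl : e' = e := funext hee
  have : FiniteDimensional k k' := Module.Finite.of_finite
  have hr : finrank k k' ≠ 0 := finrank_pos.ne'
  obtain ⟨i, hi⟩ := constants_pow (L := L) hconst hn hr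
  set q : ZMod l := ((Nat.card k : ℕ) : ZMod l) with hq
  have hrel := lfun_rel (k := k) (k' := k') hr (algebraMap K L a) (algebraMap K L b)
  rw [hQ, ← coe_expand] at hrel
  have hQ' : redL l (Lfun k (algebraMap K L a) (algebraMap K L b)) =
      (((Polynomial.expand ℤ (finrank k k') Q).map (Int.castRingHom (ZMod l)) :
        Polynomial (ZMod l)) : PowerSeries (ZMod l)) := by
    rw [hrel, redL_poly]
  have hmain := kida_eq hn hΔ D B hB hadd hP q⁻¹ _ hQ'
  have hcard : ((Nat.card k' : ℕ) : ZMod l)⁻¹ = q⁻¹ := by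
    rw [card_pow (k := k), hi, ZMod.pow_card_pow]
  have hex : ExpChar (ZMod l) l := inferInstance
  rw [Polynomial.map_expand, hi, Polynomial.rootMultiplicity_expand_pow, ZMod.pow_card_pow] at hmain
  rw [hcard, hi, hn]
  exact hmain

end consts

section loc

variable {l : ℕ} [hl : Fact l.Prime]

theorem rm_zero_of_eval {F : Type} [Field F] {P : Polynomial F} {x : F} (h : P.eval x ≠ 0) :
    P.rootMultiplicity x = 0 := Polynomial.rootMultiplicity_eq_zero h

/-- the value at `1 / q` of a polynomial modulo a prime -/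
theorem eval_rev {q : ℤ} (hq : (q : ZMod l) ≠ 0) {P : Polynomial ℤ}
    (h : ¬ (l : ℤ) ∣ P.reverse.eval q) :
    (P.map (Int.castRingHom (ZMod l))).eval ((q : ZMod l)⁻¹) ≠ 0 := by
  intro h0
  apply h
  rw [← ZMod.intCast_zmod_eq_zero_iff_dvd]
  have hx : ((q : ZMod l)⁻¹) ≠ 0 := inv_ne_zero hq
  let _ := invertibleOfNonzero hx
  have h1 := Polynomial.eval₂_reverse_mul_pow (Int.castRingHom (ZMod l)) ((q : ZMod l)⁻¹) P
  rw [Polynomial.eval_map] at h0
  rw [h0, invOf_eq_inv, inv_inv] at h1
  have h2 := (mul_eq_zero.1 h1).resolve_right (pow_ne_zero _ hx)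
  have h3 : ((P.reverse.eval q : ℤ) : ZMod l) =
      Polynomial.eval₂ (Int.castRingHom (ZMod l)) ((q : ℤ) : ZMod l) P.reverse := by
    rw [← Polynomial.eval_map, Polynomial.eval_intCast_map]
    rfl
  rw [h3, h2]

variable {k K : Type} [Field k] [Finite k] [Field K] [Algebra k K] [FF.IsFF k K]

open Classical in
/-- the Euler factor at the central point -/
theorem eval_locML (hlk : (l : k) ≠ 0) {a b : K} (hΔ : 4 * a ^ 3 + 27 * b ^ 2 ≠ 0)
    (v : Place k K) (h : ¬ (l : ℤ) ∣ (Nat.card (S.Res v) : ℤ) - S.trace v a b +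
      if v.ord (minDisc v a b) = 0 then 1 else 0) :
    (locML l v a b).eval ((Nat.card k : ℕ) : ZMod l)⁻¹ ≠ 0 := by
  intro h0
  apply h
  have hq := card_ne_zero_mod (k := k) hlk
  set q : ZMod l := ((Nat.card k : ℕ) : ZMod l) with hqdef
  have hqd : q ^ v.deg * q⁻¹ ^ v.deg = 1 := by
    rw [← mul_pow, mul_inv_cancel₀ hq, one_pow]
  have h3 : ((Nat.card (S.Res v) : ℕ) : ZMod l) = q ^ v.deg := card_RFl v
  have h4 : ((Nat.card v.RF : ℕ) : ZMod l) = q ^ v.deg := card_RFl v
  rw [← ZMod.intCast_zmod_eq_zero_iff_dvd]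
  rw [locML_eq] at h0
  by_cases hg : v.ord (minDisc v a b) = 0
  · rw [if_pos ((S.ord_disc_iff v hΔ).1 hg)] at h0
    rw [if_pos hg]
    simp only [Polynomial.eval_add, Polynomial.eval_sub, Polynomial.eval_one, Polynomial.eval_mul,
      Polynomial.eval_C, Polynomial.eval_pow, Polynomial.eval_X] at h0
    rw [h4, mul_comm 2, pow_mul] at h0
    push_cast
    rw [h3]
    have h5 : ((S.trace v a b : ℤ) : ZMod l) = ((trace v a b : ℤ) : ZMod l) := rfl
    rw [h5]
    linear_combination q ^ v.deg * h0 +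
      (((trace v a b : ℤ) : ZMod l) - q ^ v.deg * q⁻¹ ^ v.deg - 1) * hqd
  · rw [if_neg (fun h => hg ((S.ord_disc_iff v hΔ).2 h))] at h0
    rw [if_neg hg]
    simp only [Polynomial.eval_add, Polynomial.eval_sub, Polynomial.eval_one, Polynomial.eval_mul,
      Polynomial.eval_C, Polynomial.eval_pow, Polynomial.eval_X, Polynomial.eval_zero] at h0
    push_cast
    rw [h3]
    have h5 : ((S.trace v a b : ℤ) : ZMod l) = ((trace v a b : ℤ) : ZMod l) := rfl
    rw [h5]
    linear_combination q ^ v.deg * h0 + (((trace v a b : ℤ) : ZMod l)) * hqd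

end loc

section order

open Polynomial

/-- a rational zero of order `r` at `1 / q` gives an integral factor -/
theorem dvd_of_mult {q : ℕ} (hq : q ≠ 0) {G : ℤ[X]} {r : ℕ}
    (hr : (G.map (Int.castRingHom ℚ)).rootMultiplicity ((q : ℚ)⁻¹) = r) :
    (1 - C (q : ℤ) * X : ℤ[X]) ^ r ∣ G := by
  have h1 : ((1 - C (q : ℤ) * X : ℤ[X]) ^ r).IsPrimitive := primitive_of_coeff (by
    rw [Polynomial.coeff_zero_eq_eval_zero, eval_pow]
    simp)
  have hq0 : (q : ℚ) ≠ 0 := by exact_mod_cast hq
  rw [Polynomial.IsPrimitive.Int.dvd_iff_map_cast_dvd_map_cast _ _ h1]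
  have h2 : ((1 - C (q : ℤ) * X : ℤ[X]).map (Int.castRingHom ℚ)) =
      (X - C ((q : ℚ)⁻¹)) * C (-(q : ℚ)) := by
    rw [Polynomial.map_sub, Polynomial.map_one, Polynomial.map_mul, Polynomial.map_C,
      Polynomial.map_X]
    have h3 : (Int.castRingHom ℚ) (q : ℤ) = (q : ℚ) := by simp
    rw [h3, sub_mul, ← C_mul, mul_neg, inv_mul_cancel₀ hq0, C_neg, C_neg, C_1]
    ring
  rw [Polynomial.map_pow, h2, mul_pow]
  have h4 : IsUnit (C (-(q : ℚ)) ^ r) := by
    apply IsUnit.pow
    rw [Polynomial.isUnit_C]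
    exact (neg_ne_zero.2 hq0).isUnit
  rw [h4.mul_right_dvd, ← hr]
  exact pow_rootMultiplicity_dvd _ _

end order

end Pool.Agent.TH943.KD
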